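import Pool.Agent.Y262.EL.All

/-!
# A closed surface with ergodic geodesic flow whose eigenfunctions are not equidistributed

There is a compact connected Riemannian surface without boundary (with a smooth metric of nonpositive
curvature) whose geodesic flow is ergodic with respect to the Liouville measure on the unit tangent
bundle, and a sequence of real `L²`-normalized eigenfunctions of the Laplace-Beltrami operator, with
eigenvalues tending to infinity, which is not equidistributed: there is an open set `O` with boundary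
of area zero such that `∫_O u_j² dV` does not converge to `Vol (O) / Vol (M)`. This is the negated form
of the question, so the answer is negative; the theorem has no hypotheses.

How a surface is described. `Ω` is an open set of the plane with a smooth conformal metric
`exp (2 φ) |dz|²`, and `pr : Ω → M` is a continuous, open, surjective and locally injective map onto
the compact metric space `M`; points with the same image are related by a holomorphic local isometry
over `M`. So `M` is a closed surface and the metric descends to `M`. The unit vectors at the points of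
`Ω` are the pairs `(z, θ)`, the vector `exp (- φ z) exp (i θ)` at `z`; `P` is the unit tangent bundle of
`M`: two such pairs have the same image under `q` if and only if a local isometry over `M` maps one to
the other.

The surface is explicit: `M` is the quotient of the hyperbolic plane by the norm one elements of the
order `ℤ + 2ℤI + 2ℤJ + 2ℤIJ` of the quaternion algebra with `I² = 3`, `J² = -1`; the hyperbolic metric
is changed conformally in the collar of the closed geodesic of the unit `7 + 4 √3`, so that a flat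
cylinder appears, the curvature being negative elsewhere; finally it is multiplied by `exp (s h)` with
`h ≥ 0` supported away from the cylinder and invariant under the reflection.

Ingredients of the proof, all proved in Lean. (1) For almost every `s` the eigenfunctions of
`exp (s h) g` are not equidistributed (see `FlatCylinderNonQUE`: conformal variation of the eigenvalues,
sparse windows of eigenvalues around `n²`, quasimodes `χ (x) sin (n y)` on the cylinder, an ODE
argument). (2) Weak eigenfunctions are smooth (logarithmic potentials). (3) Ergodicity: for an invariant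
bounded function `f` the weak derivatives of `f` along the stable directions vanish, where the slopes
`u_T` of the Jacobi fields which vanish at time `T` are used instead of the limit; their derivatives
are bounded in `L²` uniformly in `T`, because few geodesics stay long in the region of small curvature
(Clairaut) and the curvature vanishes of high order; so all weak derivatives of `f` vanish where the
curvature is negative. (4) Discreteness and cocompactness of the group (Minkowski), the quotient, its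
unit tangent bundle, smooth dependence for the geodesic flow, existence of the measures.

About 120 parts of the proof were written by some 70 agents, see the files
`Pool/Agent/Y262/QE/All.lean`, `EG/Pre.lean`, `EX/All.lean` and `EL/All.lean`.
-/

set_option autoImplicit false

open Set Filter Topology MeasureTheory
open scoped ContDiff

noncomputable section

namespace Pool.Agent.Results.MP_ed6ab2_an.ErgodicNonQUE

/-- the partial derivative with respect to `x` -/
def px (φ : ℂ → ℝ) (z : ℂ) : ℝ := fderiv ℝ φ z 1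

/-- the partial derivative with respect to `y` -/
def py (φ : ℂ → ℝ) (z : ℂ) : ℝ := fderiv ℝ φ z Complex.I

/-- the nonnegative Laplace-Beltrami operator of the metric `exp (2 φ) |dz|²` -/
def lapl (φ v : ℂ → ℝ) (z : ℂ) : ℝ := -(Real.exp (-2 * φ z) * (px (px v) z + py (py v) z))

/-- the Gauss curvature of the metric `exp (2 φ) |dz|²` -/
def curvature (φ : ℂ → ℝ) (z : ℂ) : ℝ := lapl φ φ z

section

variable {M P : Type}

/-- `γ` is a holomorphic local isometry on the ball around `z` with radius `r`, over the surface, and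
`γ z = w` -/
def LocIso (Ω : Set ℂ) (φ : ℂ → ℝ) (pr : ℂ → M) (r : ℝ) (γ : ℂ → ℂ) (z w : ℂ) : Prop :=
  0 < r ∧ Metric.ball z r ⊆ Ω ∧ DifferentiableOn ℂ γ (Metric.ball z r) ∧ γ z = w ∧
    ∀ ζ ∈ Metric.ball z r, γ ζ ∈ Ω ∧ pr (γ ζ) = pr ζ ∧ deriv γ ζ ≠ 0 ∧
      φ (γ ζ) + Real.log ‖deriv γ ζ‖ = φ ζ

/-- `M` is a surface with a Riemannian metric which is covered by means of `pr` by the plane domain
`Ω` with the smooth metric `exp (2 φ) |dz|²` -/
structure IsSurface [TopologicalSpace M] (Ω : Set ℂ) (φ : ℂ → ℝ) (pr : ℂ → M) : Prop where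
  domain : IsOpen Ω
  smooth : ContDiffOn ℝ ∞ φ Ω
  cont : ContinuousOn pr Ω
  open_map : ∀ O : Set ℂ, IsOpen O → O ⊆ Ω → IsOpen (pr '' O)
  surj : pr '' Ω = univ
  loc_inj : ∀ z ∈ Ω, ∃ r : ℝ, 0 < r ∧ Metric.ball z r ⊆ Ω ∧ InjOn pr (Metric.ball z r)
  iso : ∀ z ∈ Ω, ∀ w ∈ Ω, pr z = pr w → ∃ (r : ℝ) (γ : ℂ → ℂ), LocIso Ω φ pr r γ z w

/-- the unit vectors `(z, θ)` (the vector `exp (- φ z) exp (i θ)` at `z`) at the points of `Ω` -/
def UV (Ω : Set ℂ) : Set (ℂ × ℝ) := {p | p.1 ∈ Ω}

/-- `P` is the unit tangent bundle of the surface and `q` maps the unit vectors at the points of `Ω`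
to `P`: two unit vectors have the same image if and only if a local isometry over the surface maps one
to the other -/
structure IsUnitTangent [TopologicalSpace P] (Ω : Set ℂ) (φ : ℂ → ℝ) (pr : ℂ → M)
    (q : ℂ × ℝ → P) : Prop where
  cont : ContinuousOn q (UV Ω)
  open_map : ∀ O : Set (ℂ × ℝ), IsOpen O → O ⊆ UV Ω → IsOpen (q '' O)
  surj : q '' UV Ω = univ
  rel : ∀ p ∈ UV Ω, ∀ p' ∈ UV Ω, (q p = q p' ↔ ∃ (r : ℝ) (γ : ℂ → ℂ),
    LocIso Ω φ pr r γ p.1 p'.1 ∧
      Complex.exp (p'.2 * Complex.I) * ‖deriv γ p.1‖ = Complex.exp (p.2 * Complex.I) * deriv γ p.1)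

/-- `μ` is the area of the surface -/
def IsAreaM [MeasurableSpace M] (Ω : Set ℂ) (φ : ℂ → ℝ) (pr : ℂ → M) (μ : Measure M) : Prop :=
  ∀ B : Set ℂ, MeasurableSet B → B ⊆ Ω → InjOn pr B →
    μ (pr '' B) = ∫⁻ z in B, ENNReal.ofReal (Real.exp (2 * φ z))

/-- `m` is the Liouville measure on the unit tangent bundle -/
def IsLiouville [MeasurableSpace P] (Ω : Set ℂ) (φ : ℂ → ℝ) (q : ℂ × ℝ → P) (m : Measure P) :
    Prop :=
  ∀ B : Set (ℂ × ℝ), MeasurableSet B → B ⊆ UV Ω → InjOn q B →
    m (q '' B) = ∫⁻ p in B, ENNReal.ofReal (Real.exp (2 * φ p.1))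

/-- the geodesic vector field: `z' = exp (- φ) exp (i θ)`,
`θ' = exp (- φ) (- φ_x sin θ + φ_y cos θ)` -/
def geod (φ : ℂ → ℝ) (p : ℂ × ℝ) : ℂ × ℝ :=
  (⟨Real.exp (-φ p.1) * Real.cos p.2, Real.exp (-φ p.1) * Real.sin p.2⟩,
    Real.exp (-φ p.1) * (-(px φ p.1) * Real.sin p.2 + py φ p.1 * Real.cos p.2))

/-- `F` is the geodesic flow (it is complete and smooth) -/
structure IsGeodesicFlow (Ω : Set ℂ) (φ : ℂ → ℝ) (F : ℝ → ℂ × ℝ → ℂ × ℝ) : Prop where
  maps : ∀ t, ∀ p ∈ UV Ω, F t p ∈ UV Ω
  zero : ∀ p ∈ UV Ω, F 0 p = p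
  ode : ∀ t, ∀ p ∈ UV Ω, HasDerivAt (fun τ => F τ p) (geod φ (F t p)) t
  smooth : ContDiffOn ℝ ∞ (fun a : ℝ × (ℂ × ℝ) => F a.1 a.2) {a | a.2 ∈ UV Ω}

/-- the geodesic flow on `P` is ergodic with respect to `m`: every invariant measurable set is null or
has a null complement -/
def IsErgodic [MeasurableSpace P] (Ω : Set ℂ) (q : ℂ × ℝ → P) (F : ℝ → ℂ × ℝ → ℂ × ℝ)
    (m : Measure P) : Prop :=
  ∀ A : Set P, MeasurableSet A → (∀ t, ∀ p ∈ UV Ω, (q (F t p) ∈ A ↔ q p ∈ A)) →
    m A = 0 ∨ m Aᶜ = 0

/-- `u` is a smooth real eigenfunction of the Laplacian of the surface with the eigenvalue `lam` -/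
def IsEigenfunction (Ω : Set ℂ) (φ : ℂ → ℝ) (pr : ℂ → M) (lam : ℝ) (u : M → ℝ) : Prop :=
  ContDiffOn ℝ ∞ (fun z => u (pr z)) Ω ∧
    ∀ z ∈ Ω, lapl φ (fun z => u (pr z)) z = lam * u (pr z)

end

/-- **Quantum unique ergodicity fails in the configuration space.** There is a closed connected
Riemannian surface `M` (covered by the plane domain `Ω` with the smooth metric `exp (2 φ) |dz|²`, with
the unit tangent bundle `P`, the area `μ`, the Liouville measure `m` and the geodesic flow `F`) of
nonpositive curvature whose geodesic flow is ergodic, and there are smooth real eigenfunctions `u j` of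
the Laplacian with eigenvalues `lam j` tending to infinity, `∫ (u j)² = 1`, and an open set `O` with
boundary of area zero such that `∫_O (u j)²` does not converge to `area (O) / area (M)`. -/
theorem result : ∃ (M P : Type) (_ : MetricSpace M) (_ : CompactSpace M) (_ : ConnectedSpace M)
    (_ : MeasurableSpace M) (_ : BorelSpace M) (_ : MetricSpace P) (_ : CompactSpace P)
    (_ : MeasurableSpace P) (_ : BorelSpace P) (Ω : Set ℂ) (φ : ℂ → ℝ) (pr : ℂ → M)
    (q : ℂ × ℝ → P) (μ : Measure M) (m : Measure P) (F : ℝ → ℂ × ℝ → ℂ × ℝ),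
    IsSurface Ω φ pr ∧ IsUnitTangent Ω φ pr q ∧ IsAreaM Ω φ pr μ ∧ IsLiouville Ω φ q m ∧
    IsGeodesicFlow Ω φ F ∧ (∀ z ∈ Ω, curvature φ z ≤ 0) ∧ IsErgodic Ω q F m ∧
    ∃ (u : ℕ → M → ℝ) (lam : ℕ → ℝ), (∀ j, IsEigenfunction Ω φ pr (lam j) (u j)) ∧
      Tendsto lam atTop atTop ∧ (∀ j, ∫ x, (u j x) ^ 2 ∂μ = 1) ∧
      ∃ O : Set M, IsOpen O ∧ μ (frontier O) = 0 ∧
        ¬ Tendsto (fun j => ∫ x in O, (u j x) ^ 2 ∂μ) atTop (𝓝 (μ.real O / μ.real univ)) := by
  obtain ⟨M, P, i1, i2, i3, i4, i5, i6, i7, i8, i9, Ω, φ, pr, q, μ, m, F, hUT, hA, hL, hG, hK, hE, u,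
    lam, hu, hlam, hn, O, hO, hO0, hnot⟩ := Pool.Agent.Y262.EL.concl2
  refine ⟨M, P, i1, i2, i3, i4, i5, i6, i7, i8, i9, Ω, φ, pr, q, μ, m, F,
    ⟨hUT.opn, hUT.smooth, hUT.contp, hUT.opnp, hUT.surjp, hUT.injp, ?_⟩,
    ⟨hUT.contq, hUT.opnq, hUT.surjq, ?_⟩, hA, hL, ⟨hG.maps, hG.zero, hG.ode, hG.smooth⟩, hK, hE,
    u, lam, hu, hlam, hn, O, hO, hO0, hnot⟩
  · intro z hz w hw h
    obtain ⟨θ', r, γ, h1, h2, h3, h4, h5, -⟩ := hUT.deck z hz w hw h 0
    exact ⟨r, γ, h1, h2, h3, h4, h5⟩
  · intro p hp p' hp'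
    rw [hUT.rel p hp p' hp']
    constructor
    · rintro ⟨r, γ, h1, h2, h3, h4, h5, h6⟩
      exact ⟨r, γ, ⟨h1, h2, h3, h4, h5⟩, h6⟩
    · rintro ⟨r, γ, ⟨h1, h2, h3, h4, h5⟩, h6⟩
      exact ⟨r, γ, h1, h2, h3, h4, h5, h6⟩

end Pool.Agent.Results.MP_ed6ab2_an.ErgodicNonQUE
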