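import Pool.Agent.Y262.QE.All

/-!
# Eigenfunctions on surfaces with a flat cylinder which are not equidistributed

Let `M` be a closed Riemannian surface which contains an isometrically embedded flat cylinder
`(0, L) × ℝ / 2πℤ` and has an isometric involution `σ` which is the reflection `y ↦ -y` on the
cylinder. Let `h ≥ 0` be a continuous function on `M`, not identically zero, invariant under `σ`, and
zero on the cylinder. Then for almost every real number `s` the surface with the conformal metric
`exp (s h) g` has a sequence of `L²`-normalized eigenfunctions of the Laplacian, with eigenvalues
tending to infinity, which is not equidistributed in the surface: there is an open set `O` whose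
boundary has area zero such that `∫_O u_j² dV` does not tend to `Vol (O) / Vol (M)`.

The metric is only assumed to be continuous (in an atlas of class `C¹`), so the eigenfunctions are
weak ones; if the metric is smooth they are smooth by elliptic regularity.

If the curvature of `g` is negative outside a closed flat cylinder and `h` is smooth with compact
support in the set of negative curvature, then for small `s` the curvature of `exp (s h) g` has the
same property, and by published theorems (Pesin; Donnelly) the geodesic flow is ergodic. So these
surfaces are counterexamples to quantum unique ergodicity in the configuration space.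

Idea of the proof: the Dirichlet integral is conformally invariant in dimension two, so the
eigenvalue `E_j (s)` has the logarithmic derivative `- ∫ h u_j² dV` for the metric `exp (s h) g`. If
all sequences of eigenfunctions were equidistributed for all `s` in a set of positive measure, then
all large eigenvalues would decrease at a definite relative speed there, so that, by the Weyl bound,
for almost every such `s` there are infinitely many `n` such that the window
`[n² - r, n² + r]` contains a bounded number of eigenvalues. The quasimodes `χ (x) sin (n y)` on the
cylinder then have a component bounded from below on an eigenfunction `u` of the window. The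
coefficient `p_m (x)` of `sin (m y)` in `u` satisfies `p_m'' = - (E - m²) p_m`; the coefficients with
`m ≠ n` oscillate rapidly and contribute equidistributed squares, so `p_n²` has to tend to a constant.
But then `p_n` tends to a constant, which is impossible as `∫ χ = 0` and `∫ χ p_n` stays away from
zero.

The parts of the proof were written by 30 agents, see `Pool/Agent/Y262/QE/All.lean`.
-/

set_option autoImplicit false

open Set Filter Topology MeasureTheory
open Pool.Agent.Y262.QE

noncomputable section

namespace Pool.Agent.Results.MP_ed6ab2_an.FlatCylinderNonQUE

/-- **Failure of quantum unique ergodicity in the configuration space.** Let `D` be the data of a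
closed Riemannian surface with the area `μ`, with a flat cylinder `Φ` of length `L` and circumference
`2π` and an isometric involution `σ` which is the reflection of the cylinder. Let `h ≥ 0` be
continuous, `σ`-invariant, zero on the cylinder and not identically zero. Then for almost every real
`s` the surface with the metric multiplied by `w = exp (s h)` (area `w dμ`) has `L²`-normalized
Laplace eigenfunctions `u j` whose eigenvalues tend to infinity, and there is an open set `O` with
boundary of area zero such that `∫_O (u j)²` does not converge to `area (O) / area (M)`. -/
theorem result (M : Type) [MetricSpace M] [CompactSpace M] [MeasurableSpace M] [BorelSpace M]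
    (μ : Measure M) (D : Data M) (hD : D.IsSurf μ) (L : ℝ) (Φ : ℂ → M) (σ : M → M)
    (hc : D.IsCyl μ L Φ σ) (h : M → ℝ) (hh : Continuous h) (h0 : ∀ x, 0 ≤ h x)
    (hσ : ∀ x, h (σ x) = h x) (hz : ∀ z ∈ Strip L, h (Φ z) = 0) (hne : ∃ x, h x ≠ 0) :
    ∀ᵐ s : ℝ, (D.conf fun x => Real.exp (s * h x)).IsSurf (wm μ fun x => Real.exp (s * h x)) ∧
      ∃ (u : ℕ → M → ℝ) (lam : ℕ → ℝ), Tendsto lam atTop atTop ∧
        (∀ j, (D.conf fun x => Real.exp (s * h x)).IsEig (wm μ fun x => Real.exp (s * h x))
          (lam j) (u j) ∧ ∫ x, (u j x) ^ 2 ∂(wm μ fun x => Real.exp (s * h x)) = 1) ∧
        ∃ O : Set M, IsOpen O ∧ (wm μ fun x => Real.exp (s * h x)) (frontier O) = 0 ∧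
          ¬ Tendsto (fun j => ∫ x in O, (u j x) ^ 2 ∂(wm μ fun x => Real.exp (s * h x))) atTop
            (𝓝 ((wm μ fun x => Real.exp (s * h x)).real O /
              (wm μ fun x => Real.exp (s * h x)).real univ)) :=
  main tFin tConf tEig tCore tPack M μ D hD L Φ σ hc h hh h0 hσ hz hne

end Pool.Agent.Results.MP_ed6ab2_an.FlatCylinderNonQUE
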