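import Pool.Agent.Y264.QR.Conc

/-!
# Equidistribution in the mean for random conformal metrics: sets with null boundary, weak limits

Let `(M, g)` be a closed surface with a continuous Riemannian metric. For a continuous function `φ`
on `M` consider the metric `exp φ · g` and an orthonormal basis `u φ 0, u φ 1, ...` of `L²` which
consists of eigenfunctions of its Laplacian, ordered by the eigenvalue; the choice of the bases is
arbitrary.

Let `P` be a Borel probability measure on `C(M)` which is quasi-invariant under the translations by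
the multiples of the functions of a set `S` with dense linear span (for instance a nondegenerate
Gaussian measure and its Cameron-Martin space), and let `B` be a Borel set whose boundary has area
zero. Then

* for all large `j` the mass `∫_B (u φ j)² dA_φ` is a measurable function of `φ` (up to `P`-null
  sets), and it tends to `Area (B) / Area (M)`, weakly in `L¹ (P)` as `j → ∞`, along the full
  sequence of the eigenvalues;
* along every fixed sequence of indices and for `P`-almost every metric: if `∫_B (u φ (J k))² dA_φ`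
  converges, then its limit is `Area (B) / Area (M)`.

Moreover, for every fixed sequence of indices `J k → ∞` and for `P`-almost every metric: if the
measures `(u φ (J k))² dA_φ` converge weakly, then the limit is the normalized area.

Idea of the proof: the first part of `MP_07c750_an/RandomConformalMetrics.lean` (Hadamard's formula
for the derivatives of the eigenvalue branches in dimension two and Weyl's law, proved here for
continuous metrics) and approximation of closed sets by continuous functions from outside.

The parts of the proof were written by helpers 147, 155, 183, 219, 252, 268, 319, 378, 390, 401,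
419, 689, 708, 764, 941, on the basis of the spectral theory of helper262's project QE (30 agents,
see `Pool/Agent/Y262/QE/All.lean`).
-/

set_option autoImplicit false

open Set Filter Topology MeasureTheory
open Pool.Agent.Y262.QE

noncomputable section

namespace Pool.Agent.Results.MP_ed6ab2_an.RandomConformalMetrics

/-- `u 0, u 1, ...` is an orthonormal basis of `L² (μ)` which consists of eigenfunctions of the
Laplacian of the surface `D` with the area `μ`; the eigenvalues `lam 0 ≤ lam 1 ≤ ...` are ordered -/
structure IsEigenbasis {M : Type} [MeasurableSpace M] (D : Data M) (μ : Measure M)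
    (u : ℕ → M → ℝ) (lam : ℕ → ℝ) : Prop where
  eig : ∀ j, D.IsEig μ (lam j) (u j)
  mono : Monotone lam
  orth : ∀ i j, ∫ x, u i x * u j x ∂μ = if i = j then 1 else 0
  total : ∀ f : M → ℝ, MemLp f 2 μ → (∀ j, ∫ x, f x * u j x ∂μ = 0) → f =ᵐ[μ] 0

/-- the surface with the metric `exp φ · g` -/
def surf {M : Type} [TopologicalSpace M] (D : Data M) (φ : C(M, ℝ)) : Data M :=
  D.conf fun x => Real.exp (φ x)

/-- the area of the metric `exp φ · g` -/
def area {M : Type} [TopologicalSpace M] [MeasurableSpace M] (μ : Measure M) (φ : C(M, ℝ)) :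
    Measure M :=
  wm μ fun x => Real.exp (φ x)

theorem result (M : Type) [MetricSpace M] [CompactSpace M] [MeasurableSpace M] [BorelSpace M]
    [Nonempty M] (μ : Measure M) (D : Data M) (hD : D.IsSurf μ) :
    (∀ φ : C(M, ℝ), (surf D φ).IsSurf (area μ φ) ∧
      ∃ (u : ℕ → M → ℝ) (lam : ℕ → ℝ), IsEigenbasis (surf D φ) (area μ φ) u lam) ∧
    ∀ [MeasurableSpace C(M, ℝ)] [BorelSpace C(M, ℝ)] (P : Measure C(M, ℝ)) [IsProbabilityMeasure P]
      (S : Set C(M, ℝ)), Dense (Submodule.span ℝ S : Set C(M, ℝ)) →
      (∀ h ∈ S, ∀ t : ℝ, P.map (fun φ => φ + t • h) ≪ P) →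
    ∀ (u : C(M, ℝ) → ℕ → M → ℝ) (lam : C(M, ℝ) → ℕ → ℝ),
      (∀ φ, IsEigenbasis (surf D φ) (area μ φ) (u φ) (lam φ)) →
    (∀ B : Set M, MeasurableSet B → μ (frontier B) = 0 →
      (∃ J : ℕ, ∀ j : ℕ, J ≤ j →
        AEStronglyMeasurable (fun φ => ∫ x in B, (u φ j x) ^ 2 ∂(area μ φ)) P) ∧
      (∀ χ : C(M, ℝ) → ℝ, Integrable χ P →
        Tendsto (fun j => ∫ φ, χ φ * ∫ x in B, (u φ j x) ^ 2 ∂(area μ φ) ∂P) atTop
          (𝓝 (∫ φ, χ φ * ((area μ φ).real B / (area μ φ).real univ) ∂P))) ∧
      ∀ J : ℕ → ℕ, Tendsto J atTop atTop → ∀ᵐ φ ∂P, ∀ L : ℝ,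
        Tendsto (fun k => ∫ x in B, (u φ (J k) x) ^ 2 ∂(area μ φ)) atTop (𝓝 L) →
          L = (area μ φ).real B / (area μ φ).real univ) ∧
    ∀ J : ℕ → ℕ, Tendsto J atTop atTop → ∀ᵐ φ ∂P, ∀ ν : Measure M, IsFiniteMeasure ν →
      (∀ f : C(M, ℝ), Tendsto (fun k => ∫ x, f x * (u φ (J k) x) ^ 2 ∂(area μ φ)) atTop
        (𝓝 (∫ x, f x ∂ν))) → ν = ((area μ φ) univ)⁻¹ • area μ φ := by
  refine ⟨fun φ => ⟨(Pool.Agent.Y262.QE.tConf M μ D hD _
    (Real.continuous_exp.comp φ.continuous) fun x => Real.exp_pos _).1, ?_⟩, ?_⟩
  · obtain ⟨u, lam, h⟩ := Pool.Agent.Y264.QR.tEx M μ D hD inferInstance φ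
    exact ⟨u, lam, h.eig, h.mono, h.orth, h.total⟩
  · intro _ _ P _ S hS hP u lam hu
    exact Pool.Agent.Y264.QR.conc M μ D hD P S hS hP u lam
      fun φ => ⟨(hu φ).eig, (hu φ).mono, (hu φ).orth, (hu φ).total⟩

end Pool.Agent.Results.MP_ed6ab2_an.RandomConformalMetrics
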